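import Pool.Agent.X39.Near.Master
import Pool.Agent.X142.AZ.HurwQ

/-!
# `ζ(2, z) ζ(3, z)` and its relatives at ALL algebraic points close to any number outside a set of dimension zero

The numbers `ζ(2) ζ(3)`, `ζ(2)`, `ζ(3)`, `ζ(4)`, `ζ(5)` of the question are values at `z = 1` of products of the functions
`ζ(k, z) = ∑ (z + n) ^ (-k)`. We prove: outside ONE set `E` of complex numbers of Hausdorff dimension `0` (for all families
of shifts, all `K`, all number fields, degrees and scales), for every complex `x`, every family of algebraic numbers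
`α_1, …, α_r` pairwise incongruent modulo `ℤ`, the numbers `ψ (t + α_j)` (digamma) and `ζ(k, t + α_j)`, `2 ≤ k ≤ K + 1`, at
ALL algebraic points `t` of a number field close to `x`, satisfy no polynomial relation of bounded degree with coefficients of
polynomial size, even approximately.

Proof: these functions are algebraically independent over `ℂ(z)`; the levels of the library give, on compact sets, at most
`C T ^ ε` exceptional points of height `T`, for every `ε > 0`, and so a limsup set of dimension `0`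
(`Pool.Agent.X39.Near`); the countably many families are treated at the same time.
-/

set_option autoImplicit false

open MeasureTheory NumberField

namespace Pool.Agent.Results.MP_524521_nt.ApproximationsOfAllNumbers

open Pool.Agent.X39.Near (Size Dependent)

/-- The Hurwitz zeta value `ζ(k, z) = ∑_{n ≥ 0} 1 / (z + n) ^ k`; `ζ(k, 1) = ζ(k)`. -/
noncomputable def hurwitz (k : ℕ) (z : ℂ) : ℂ := ∑' n : ℕ, ((z + n) ^ k)⁻¹

/-- `-ψ(z + α_j)` for `k = 0`, where `ψ = Γ' / Γ` is the digamma function, and `ζ(k + 1, z + α_j)` for `1 ≤ k < K`. -/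
noncomputable def value {r : ℕ} (α : Fin r → ℂ) (K : ℕ) (j : Fin r × Fin K) (z : ℂ) : ℂ :=
  if (j.2 : ℕ) = 0 then -Complex.digamma (z + α j.1) else hurwitz (j.2 + 1) (z + α j.1)

/-- The numbers `α_j` are pairwise incongruent modulo `ℤ`. -/
def Incongruent {r : ℕ} (α : Fin r → ℂ) : Prop := ∀ i j, (∃ n : ℤ, α i - α j = n) → i = j

/-- the points without poles and zeros of `w` -/
def domain {r : ℕ} (α : Fin r → ℂ) (w : Polynomial ℂ) : Set ℂ :=
  {z | (∀ j, ∀ n : ℕ, z + α j ≠ -n) ∧ w.eval z ≠ 0}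

theorem domain_open {r : ℕ} (α : Fin r → ℂ) (w : Polynomial ℂ) : IsOpen (domain α w) := by
  have h1 : domain α w = (⋂ j, {z : ℂ | (Complex.Gamma (z + α j))⁻¹ ≠ 0}) ∩ {z | w.eval z ≠ 0} := by
    ext z
    simp only [domain, Set.mem_ofPred_eq, Set.mem_inter_iff, Set.mem_iInter, ne_eq, inv_eq_zero,
      Complex.Gamma_eq_zero_iff, not_exists]
  rw [h1]
  refine IsOpen.inter (isOpen_iInter_of_finite fun j => ?_) (isOpen_ne_fun w.continuous continuous_const)
  exact isOpen_ne_fun (Complex.differentiable_one_div_Gamma.continuous.comp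
    (continuous_id.add continuous_const)) continuous_const

theorem value_eq {r : ℕ} (α : Fin r → ℂ) (K : ℕ) (j : Fin r × Fin K) :
    value α K j = fun z => Pool.Agent.X142.AZ.hd ((j.2 : ℕ) + 1) (z + α j.1) := by
  funext z
  unfold value Pool.Agent.X142.AZ.hd
  by_cases h : (j.2 : ℕ) = 0
  · rw [if_pos h, if_pos (by omega)]
  · rw [if_neg h, if_neg (by omega)]
    rfl

theorem value_analytic {r : ℕ} (α : Fin r → ℂ) (w : Polynomial ℂ) (K : ℕ) (j : Fin r × Fin K) {z : ℂ}
    (hz : z ∈ domain α w) : AnalyticAt ℂ (value α K j) z := by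
  rw [value_eq]
  exact (Pool.Agent.X142.AZ.hd_analytic (show 1 ≤ (j.2 : ℕ) + 1 by omega) (hz.1 j.1)).comp_of_eq
    (analyticAt_id.add analyticAt_const) rfl

theorem value_locInd {r : ℕ} {α : Fin r → ℂ} (hα : Incongruent α) (w : Polynomial ℂ) (K : ℕ) {z : ℂ}
    (hz : z ∈ domain α w) : Pool.Agent.Y124.LocInd (value α K) z := by
  have h := Pool.Agent.X142.AZ.locIndS' (κ := Fin r × Fin K) (fun k => (k.2 : ℕ) + 1) (fun k => α k.1)
    (fun k l h1 h2 => Prod.ext (hα _ _ ⟨0, by rw [h2]; simp⟩) (Fin.ext (by simpa using h1)))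
    (fun k l h1 => by rw [hα _ _ h1]) (fun k => by omega) (z := z) (fun k => hz.1 k.1)
  have h2 : value α K = fun (k : Fin r × Fin K) z => Pool.Agent.X142.AZ.hd ((k.2 : ℕ) + 1) (z + α k.1) := by
    funext k
    exact value_eq α K k
  rw [h2]
  exact h

/-- the index set -/
def Ix : Type := Σ r : ℕ, (Fin r → {α : ℂ // IsAlgebraic ℚ α}) × ℕ

instance : Countable Ix := by
  have : Countable {α : ℂ // IsAlgebraic ℚ α} := (Algebraic.countable ℚ ℂ).to_subtype
  unfold Ix
  infer_instance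

/-- **Theorem.** Let `u_k`, `w ≠ 0` be complex polynomials and `ξ_1, …, ξ_g` complex numbers. There is a set `E` of
complex numbers of Hausdorff dimension `0` such that for all algebraic numbers `α_1, …, α_r`, pairwise incongruent modulo `ℤ`,
and all `K`: (1) for all complex `x` outside `E`, all number fields `F` with an embedding `ι` in `ℂ`, all `d`, `A` and
`ω > 0` there are `B`, `T₁` such that for all `T ≥ T₁` and all `t ∈ F`, quotients of integers with conjugates at most `T`,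
with `|ι t - x| ≤ T ^ (-ω)`, the values at `t` of the functions `value α K` are not dependent; (2) for all real `x` outside
`E`, all `d`, `A` there is `B` such that their values at the convergents `t` of `x` are not dependent over `ℚ`, at the level
of the denominator, from some point on. -/
theorem result {m g : ℕ} (u : Fin m → Polynomial ℂ) (w : Polynomial ℂ) (hw : w ≠ 0) (ξ : Fin g → ℂ) :
    ∃ E : Set ℂ, dimH E = 0 ∧ ∀ (r K : ℕ) (α : Fin r → ℂ), (∀ j, IsAlgebraic ℚ (α j)) → Incongruent α →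
      (∀ x : ℂ, x ∉ E → ∀ (F : Type) [Field F] [NumberField F] (ι : F →+* ℂ)
        (d A : ℕ) (ω : ℝ), 0 < ω → ∃ B T₁ : ℝ, ∀ T : ℝ, T₁ ≤ T → ∀ t : F, Size F T t →
          ‖ι t - x‖ ≤ T ^ (-ω) → ¬ Dependent (value α K) u w ξ F ι d A B T t) ∧
      ∀ x : ℝ, (x : ℂ) ∉ E → ∀ d A : ℕ, ∃ (B : ℝ) (n₀ : ℕ), ∀ k : ℕ,
        n₀ ≤ k → ¬ Dependent (value α K) u w ξ ℚ (algebraMap ℚ ℂ) d A B (x.convergent k).den
          (x.convergent k) := by
  classical
  have H : ∀ i : Ix, ∃ E : Set ℂ, dimH E = 0 ∧ (Incongruent (fun j => (i.2.1 j : ℂ)) →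
      (∀ x ∈ domain (fun j => (i.2.1 j : ℂ)) w, x ∉ E → ∀ (F : Type) [Field F] [NumberField F] (ι : F →+* ℂ)
        (d A : ℕ) (ω : ℝ), 0 < ω → ∃ B T₁ : ℝ, ∀ T : ℝ, T₁ ≤ T → ∀ t : F, Size F T t →
          ‖ι t - x‖ ≤ T ^ (-ω) → ¬ Dependent (value (fun j => (i.2.1 j : ℂ)) i.2.2) u w ξ F ι d A B T t) ∧
      ∀ x : ℝ, Irrational x → (x : ℂ) ∈ domain (fun j => (i.2.1 j : ℂ)) w → (x : ℂ) ∉ E → ∀ d A : ℕ,
        ∃ (B : ℝ) (n₀ : ℕ), ∀ k : ℕ, n₀ ≤ k → ¬ Dependent (value (fun j => (i.2.1 j : ℂ)) i.2.2) u w ξ ℚ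
          (algebraMap ℚ ℂ) d A B (x.convergent k).den (x.convergent k)) := by
    intro i
    by_cases hi : Incongruent (fun j => (i.2.1 j : ℂ))
    · obtain ⟨E, h1, h2, h3⟩ := Pool.Agent.X39.Near.master _ (domain_open (fun j => (i.2.1 j : ℂ)) w)
        (value (fun j => (i.2.1 j : ℂ)) i.2.2) (fun j z hz => value_analytic _ w _ j hz)
        (fun z hz => value_locInd hi w _ hz) u w (fun t ht => ht.2) ξ
      exact ⟨E, h1, fun _ => ⟨h2, h3⟩⟩
    · exact ⟨∅, dimH_empty, fun h => absurd h hi⟩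
  choose E hE0 hE using H
  refine ⟨({x : ℂ | IsAlgebraic ℚ x} ∪ {x : ℂ | w.eval x = 0}) ∪ ⋃ i, E i, ?_, ?_⟩
  · rw [dimH_union, dimH_union, dimH_iUnion, Set.Countable.dimH_zero (Algebraic.countable ℚ ℂ),
      (show {x : ℂ | w.eval x = 0}.Finite from Polynomial.finite_setOfPred_isRoot hw).dimH_zero]
    simp [hE0]
  intro r K α hα hinc
  have hdom : ∀ x : ℂ, ¬ IsAlgebraic ℚ x → w.eval x ≠ 0 → x ∈ domain α w := by
    intro x hx hwx
    refine ⟨fun j n h => hx ?_, hwx⟩
    have h1 : x = -(n : ℂ) - α j := by rw [← h]; ring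
    rw [h1]
    exact ((isAlgebraic_natCast n).neg).sub (hα j)
  set i : Ix := ⟨r, fun j => ⟨α j, hα j⟩, K⟩ with hi
  have hEi := hE i hinc
  have hmem : ∀ x : ℂ, x ∉ ({x : ℂ | IsAlgebraic ℚ x} ∪ {x : ℂ | w.eval x = 0}) ∪ ⋃ i, E i →
      ¬ IsAlgebraic ℚ x ∧ w.eval x ≠ 0 ∧ x ∉ E i := by
    intro x hx
    exact ⟨fun h => hx (Or.inl (Or.inl h)), fun h => hx (Or.inl (Or.inr h)),
      fun h => hx (Or.inr (Set.mem_iUnion.2 ⟨i, h⟩))⟩
  refine ⟨fun x hx => ?_, fun x hx => ?_⟩
  · obtain ⟨h1, h2, h3⟩ := hmem x hx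
    exact hEi.1 x (hdom x h1 h2) h3
  · obtain ⟨h1, h2, h3⟩ := hmem x hx
    refine hEi.2 x (fun h => h1 ?_) (hdom x h1 h2) h3
    obtain ⟨y, rfl⟩ := h
    have h4 : (((y : ℝ)) : ℂ) = algebraMap ℚ ℂ y := by simp
    rw [h4]
    exact isAlgebraic_algebraMap y

end Pool.Agent.Results.MP_524521_nt.ApproximationsOfAllNumbers
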