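import Mathlib
import Pool.Agent.H103R2.LM.M
import Pool.Agent.TH456.TM.Inst

set_option autoImplicit false

/-!
# MP_524521_nt: `ζ(2) ζ(3)` is not a rational combination of `ζ(2)` and `ζ(4)`

We show that `ζ(2), ζ(4), ζ(2) ζ(3)` are linearly independent over `ℚ`, with a polynomial measure.  So a
relation `ζ(2) ζ(3) = a ζ(2) + b ζ(3) + c ζ(4) + d ζ(5)` with rational `a, b, c, d` must have `b ≠ 0` or
`d ≠ 0`, and the space of all rational relations between `ζ(2) ζ(3)`, `ζ(2)`, `ζ(3)`, `ζ(4)`, `ζ(5)` has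
dimension at most two: a relation is determined by its coefficients at `ζ(3)` and `ζ(5)`.

The proof reduces the statement to the measure for `1, ζ(2), ζ(3)` of the starting library
(`Pool.Agent.H103R2.LM.M`) and to a transcendence measure of `π` (`Pool.Agent.TH456.TM.Inst`).
-/

namespace Pool.Agent.Results.MP_524521_nt.EvenPartMeasure

open Polynomial

/-- `ζ(s)` for an integer `s ≥ 2` -/
noncomputable def z (s : ℕ) : ℝ := ∑' n : ℕ, 1 / ((n : ℝ) + 1) ^ s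

lemma z_two : z 2 = Real.pi ^ 2 / 6 := Pool.Agent.LZ.Z2_value

lemma z_four : z 4 = Real.pi ^ 4 / 90 := by
  have h := (hasSum_nat_add_iff' (f := fun n : ℕ => 1 / (n : ℝ) ^ 4) 1).2 hasSum_zeta_four
  rw [Finset.sum_range_one] at h
  have e : Real.pi ^ 4 / 90 - 1 / (((0 : ℕ) : ℝ)) ^ 4 = Real.pi ^ 4 / 90 := by norm_num
  rw [e] at h
  have h2 : HasSum (fun n : ℕ => 1 / ((n : ℝ) + 1) ^ 4) (Real.pi ^ 4 / 90) := by
    have e2 : (fun n : ℕ => 1 / ((n : ℝ) + 1) ^ 4) = fun n : ℕ => 1 / (((n + 1 : ℕ) : ℝ)) ^ 4 := by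
      funext n
      push_cast
      rfl
    rw [e2]
    exact h
  exact h2.tsum_eq

/-- the measure for `15 a + c π²` -/
lemma pi_meas : ∃ κ c0 : ℝ, 0 ≤ κ ∧ 0 < c0 ∧ ∀ a c : ℤ, (a ≠ 0 ∨ c ≠ 0) → ∀ H : ℝ, 1 ≤ H →
    |(a : ℝ)| ≤ H → |(c : ℝ)| ≤ H → c0 * H ^ (-κ) ≤ |(a : ℝ) + c * Real.pi ^ 2| := by
  obtain ⟨κ, c0, hκ, hc0, h⟩ := Pool.Agent.TH456.TM.measT_pi 2
  refine ⟨κ, c0, hκ, hc0, fun a c hac H hH ha hc => ?_⟩
  have hH0 : 0 < H := by linarith
  set P : ℤ[X] := C c * X ^ 2 + C a with hP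
  have hc2 : P.coeff 2 = c := by
    rw [hP, coeff_add, coeff_C_mul, coeff_X_pow, if_pos rfl, coeff_C, if_neg (by norm_num)]
    ring
  have hc00 : P.coeff 0 = a := by
    rw [hP, coeff_add, coeff_C_mul, coeff_X_pow, if_neg (by norm_num), coeff_C, if_pos rfl]
    ring
  have hP0 : P ≠ 0 := by
    intro h0
    rcases hac with h1 | h1
    · apply h1
      rw [← hc00, h0, coeff_zero]
    · apply h1
      rw [← hc2, h0, coeff_zero]
  have hdeg : P.natDegree ≤ 2 := by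
    rw [hP]
    refine (natDegree_add_le _ _).trans ?_
    rw [max_le_iff]
    refine ⟨natDegree_C_mul_X_pow_le _ _, ?_⟩
    rw [natDegree_C]
    omega
  have hcoef : ∀ j, |(P.coeff j : ℝ)| ≤ H := by
    intro j
    rcases eq_or_ne j 0 with rfl | h0
    · rw [hc00]; exact ha
    · rcases eq_or_ne j 2 with rfl | h3
      · rw [hc2]; exact hc
      · rw [hP, coeff_add, coeff_C_mul, coeff_X_pow, if_neg h3, coeff_C, if_neg h0]
        simp
        linarith
  have h3 := h P hP0 hdeg H hH hcoef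
  have hval : ‖aeval (Real.pi : ℂ) P‖ = |(a : ℝ) + c * Real.pi ^ 2| := by
    have e : aeval (Real.pi : ℂ) P = (((a : ℝ) + c * Real.pi ^ 2 : ℝ) : ℂ) := by
      rw [hP, map_add, map_mul, map_pow, aeval_X, aeval_C, aeval_C]
      simp only [algebraMap_int_eq, eq_intCast]
      push_cast
      ring
    rw [e, Complex.norm_real, Real.norm_eq_abs]
  rw [hval] at h3
  rw [Real.rpow_neg hH0.le, ← div_eq_mul_inv, div_le_iff₀ (Real.rpow_pos_of_pos hH0 _), mul_comm]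
  exact h3

/-- the measure -/
theorem measure : ∃ c0 κ : ℝ, 0 < c0 ∧ 0 < κ ∧ ∀ e a c : ℤ, (e ≠ 0 ∨ a ≠ 0 ∨ c ≠ 0) → ∀ H : ℝ, 1 ≤ H →
    |(e : ℝ)| ≤ H → |(a : ℝ)| ≤ H → |(c : ℝ)| ≤ H →
    c0 * H ^ (-κ) ≤ |(e : ℝ) * (z 2 * z 3) - a * z 2 - c * z 4| := by
  obtain ⟨c1, hc1, κ1, hκ1, h1⟩ := Pool.Agent.LM.measure_d
  obtain ⟨κ2, c2, hκ2, hc2, h2⟩ := pi_meas
  have hz3 : Pool.Agent.H337R2.zr 3 = z 3 := rfl
  have hz2 : Pool.Agent.H337R2.zr 2 = z 2 := rfl
  rw [hz3, hz2] at h1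
  have hpi : 3 < Real.pi := Real.pi_gt_three
  have hz20 : 1 ≤ z 2 := by rw [z_two]; nlinarith
  have key : ∀ e a c : ℝ, e * (z 2 * z 3) - a * z 2 - c * z 4 =
      z 2 / 5 * (-5 * a + -2 * c * z 2 + 5 * e * z 3) := by
    intro e a c
    have : z 4 = 2 / 5 * z 2 ^ 2 := by rw [z_four, z_two]; ring
    rw [this]
    ring
  refine ⟨min (c1 * 5 ^ (-κ1) / 5) (c2 * 15 ^ (-κ2) / 15), max κ1 κ2, by positivity,
    lt_max_of_lt_left hκ1, ?_⟩
  intro e a c hne H hH he ha hc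
  have hH0 : 0 < H := by linarith
  have hpow1 : H ^ (-(max κ1 κ2)) ≤ H ^ (-κ1) :=
    Real.rpow_le_rpow_of_exponent_le hH (neg_le_neg (le_max_left _ _))
  have hpow2 : H ^ (-(max κ1 κ2)) ≤ H ^ (-κ2) :=
    Real.rpow_le_rpow_of_exponent_le hH (neg_le_neg (le_max_right _ _))
  have hp : 0 < H ^ (-(max κ1 κ2)) := Real.rpow_pos_of_pos hH0 _
  rw [key, abs_mul, abs_of_pos (by positivity)]
  -- it suffices to bound the linear form in `1, ζ(2), ζ(3)`
  have hred : ∀ y : ℝ, 0 ≤ y → y / 5 ≤ z 2 / 5 * y := by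
    intro y hy
    have : 1 * y ≤ z 2 * y := mul_le_mul_of_nonneg_right hz20 hy
    linarith
  refine le_trans ?_ (hred _ (abs_nonneg _))
  rw [le_div_iff₀ (by norm_num : (0 : ℝ) < 5)]
  by_cases he0 : e = 0
  · have hac : -(15 * a) ≠ 0 ∨ -c ≠ 0 := by
      rcases hne with h | h | h
      · exact absurd he0 h
      · left; omega
      · right; omega
    have h3 := h2 (-(15 * a)) (-c) hac (15 * H) (by linarith)
      (by push_cast; rw [abs_neg, abs_mul, abs_of_pos (by norm_num : (0 : ℝ) < 15)]; linarith)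
      (by push_cast; rw [abs_neg]; linarith)
    have e1 : ((-(15 * a) : ℤ) : ℝ) + ((-c : ℤ) : ℝ) * Real.pi ^ 2 =
        3 * (-5 * (a : ℝ) + -2 * c * z 2 + 5 * (e : ℝ) * z 3) := by
      rw [he0, z_two]
      push_cast
      ring
    rw [e1, abs_mul, abs_of_pos (by norm_num : (0 : ℝ) < 3), Real.mul_rpow (by norm_num) hH0.le] at h3
    have h4 : min (c1 * 5 ^ (-κ1) / 5) (c2 * 15 ^ (-κ2) / 15) * H ^ (-(max κ1 κ2)) ≤
        c2 * 15 ^ (-κ2) / 15 * H ^ (-κ2) :=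
      mul_le_mul (min_le_right _ _) hpow2 hp.le (by positivity)
    nlinarith
  · have h3 := h1 (-5 * a) (-2 * c) (5 * e) (5 * H) (by linarith) (mul_ne_zero (by norm_num) he0)
      (by push_cast; rw [abs_mul]; norm_num; linarith)
      (by push_cast; rw [abs_mul]; norm_num; linarith)
    have e1 : ((-5 * a : ℤ) : ℝ) + ((-2 * c : ℤ) : ℝ) * z 2 + ((5 * e : ℤ) : ℝ) * z 3 =
        -5 * (a : ℝ) + -2 * c * z 2 + 5 * (e : ℝ) * z 3 := by
      push_cast; ring
    rw [e1, Real.mul_rpow (by norm_num) hH0.le] at h3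
    have h4 : min (c1 * 5 ^ (-κ1) / 5) (c2 * 15 ^ (-κ2) / 15) * H ^ (-(max κ1 κ2)) ≤
        c1 * 5 ^ (-κ1) / 5 * H ^ (-κ1) :=
      mul_le_mul (min_le_left _ _) hpow1 hp.le (by positivity)
    linarith

/-- linear independence -/
theorem indep : LinearIndependent ℚ ![z 2, z 4, z 2 * z 3] := by
  rw [← LinearIndependent.iff_fractionRing ℤ ℚ, Fintype.linearIndependent_iff]
  intro g hg
  obtain ⟨c0, κ, hc0, hκ, h⟩ := measure
  by_contra hcon
  have hg0 : g 2 ≠ 0 ∨ -(g 0) ≠ 0 ∨ -(g 1) ≠ 0 := by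
    by_contra h0
    push Not at h0
    apply hcon
    intro i
    fin_cases i
    · exact neg_eq_zero.1 h0.2.1
    · exact neg_eq_zero.1 h0.2.2
    · exact h0.1
  obtain ⟨H, hH⟩ : ∃ H : ℝ, H = max 1 (max |(g 2 : ℝ)| (max |((-(g 0) : ℤ) : ℝ)| |((-(g 1) : ℤ) : ℝ)|)) :=
    ⟨_, rfl⟩
  have h1 := h (g 2) (-(g 0)) (-(g 1)) hg0 H (by rw [hH]; exact le_max_left _ _)
    (by rw [hH]; exact (le_max_left _ _).trans (le_max_right _ _))
    (by rw [hH]; exact (le_max_left _ _).trans ((le_max_right _ _).trans (le_max_right _ _)))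
    (by rw [hH]; exact (le_max_right _ _).trans ((le_max_right _ _).trans (le_max_right _ _)))
  rw [Fin.sum_univ_three] at hg
  simp only [Fin.isValue, Matrix.cons_val_zero, Matrix.cons_val_one, Matrix.cons_val,
    zsmul_eq_mul] at hg
  have e1 : (g 2 : ℝ) * (z 2 * z 3) - ((-(g 0) : ℤ) : ℝ) * z 2 - ((-(g 1) : ℤ) : ℝ) * z 4 = 0 := by
    push_cast
    linarith
  rw [e1, abs_zero] at h1
  have hH1 : 0 < H := by rw [hH]; exact lt_max_of_lt_left one_pos
  have h2 : 0 < c0 * H ^ (-κ) := mul_pos hc0 (Real.rpow_pos_of_pos hH1 _)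
  linarith

/-- the space of relations `x 0 ζ(2) ζ(3) + x 1 ζ(2) + x 2 ζ(3) + x 3 ζ(4) + x 4 ζ(5) = 0` -/
def Relations : Submodule ℚ (Fin 5 → ℚ) where
  carrier := {x | (x 0 : ℝ) * (z 2 * z 3) + x 1 * z 2 + x 2 * z 3 + x 3 * z 4 + x 4 * z 5 = 0}
  zero_mem' := by simp
  add_mem' := by
    intro x y hx hy
    simp only [Set.mem_ofPred_eq, Pi.add_apply] at hx hy ⊢
    push_cast
    linarith
  smul_mem' := by
    intro r x hx
    simp only [Set.mem_ofPred_eq, Pi.smul_apply, smul_eq_mul] at hx ⊢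
    push_cast
    linear_combination (r : ℝ) * hx

/-- a relation is determined by its coefficients at `ζ(3)` and `ζ(5)` -/
lemma determined (x : Fin 5 → ℚ) (hx : x ∈ Relations) (h2 : x 2 = 0) (h4 : x 4 = 0) : x = 0 := by
  have hx' : (x 0 : ℝ) * (z 2 * z 3) + x 1 * z 2 + x 2 * z 3 + x 3 * z 4 + x 4 * z 5 = 0 := hx
  rw [h2, h4] at hx'
  have h := indep
  rw [Fintype.linearIndependent_iff] at h
  have h1 := h ![x 1, x 3, x 0] (by
    rw [Fin.sum_univ_three]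
    simp only [Fin.isValue, Matrix.cons_val_zero, Matrix.cons_val_one, Matrix.cons_val, Rat.smul_def]
    push_cast at hx'
    linarith)
  funext i
  fin_cases i
  · exact h1 2
  · exact h1 0
  · exact h2
  · exact h1 1
  · exact h4

theorem result :
    -- `ζ(2) ζ(3)` is not in the rational span of `ζ(2)` and `ζ(4)`; linear independence
    (∀ a c : ℚ, z 2 * z 3 ≠ a * z 2 + c * z 4) ∧ LinearIndependent ℚ ![z 2, z 4, z 2 * z 3] ∧
    -- a polynomial measure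
    (∃ c0 κ : ℝ, 0 < c0 ∧ 0 < κ ∧ ∀ e a c : ℤ, (e ≠ 0 ∨ a ≠ 0 ∨ c ≠ 0) → ∀ H : ℝ, 1 ≤ H →
      |(e : ℝ)| ≤ H → |(a : ℝ)| ≤ H → |(c : ℝ)| ≤ H →
      c0 * H ^ (-κ) ≤ |(e : ℝ) * (z 2 * z 3) - a * z 2 - c * z 4|) ∧
    -- the space of relations between `ζ(2) ζ(3), ζ(2), ζ(3), ζ(4), ζ(5)`
    (∀ x ∈ Relations, x 2 = 0 → x 4 = 0 → x = 0) ∧ Module.finrank ℚ Relations ≤ 2 := by
  refine ⟨?_, indep, measure, determined, ?_⟩
  · intro a c h
    have h1 : ![(1 : ℚ), -a, 0, -c, 0] ∈ Relations := by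
      change (((1 : ℚ) : ℝ)) * (z 2 * z 3) + ((-a : ℚ) : ℝ) * z 2 + ((0 : ℚ) : ℝ) * z 3 +
        ((-c : ℚ) : ℝ) * z 4 + ((0 : ℚ) : ℝ) * z 5 = 0
      push_cast
      linarith
    have h2 := determined _ h1 rfl rfl
    have h3 := congrFun h2 0
    simp at h3
  · obtain ⟨f, hf⟩ : ∃ f : Relations →ₗ[ℚ] (Fin 2 → ℚ), ∀ x, f x = ![x.1 2, x.1 4] :=
      ⟨{ toFun := fun x => ![x.1 2, x.1 4]
         map_add' := by
           intro x y
           funext i
           fin_cases i <;> simp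
         map_smul' := by
           intro r x
           funext i
           fin_cases i <;> simp }, fun _ => rfl⟩
    have hinj : Function.Injective f := by
      rw [injective_iff_map_eq_zero]
      intro x hx
      rw [hf] at hx
      have h0 := congrFun hx 0
      have h1 := congrFun hx 1
      apply Subtype.ext
      exact determined x.1 x.2 h0 h1
    have := LinearMap.finrank_le_finrank_of_injective hinj
    simpa using this

end Pool.Agent.Results.MP_524521_nt.EvenPartMeasure
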