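import Mathlib
import Pool.Agent.X142.AZ.HurwShift
import Pool.Agent.X142.AZ.Few
import Pool.Agent.X142.DN.Int

/-!
# `ζ(2) ζ(3)` and `ζ(2), …, ζ(5)`: the Hurwitz zeta values at almost all rational arguments

The numbers of the problem are the values at `x = 1` of the products and combinations of the Hurwitz
zeta functions `ζ(k, x) = ∑_{n ≥ 0} (n + x)^(-k)`. We prove that for all but very few rational numbers
`x` the number `ζ(2, x) ζ(3, x)` is not a combination of `1`, `ζ(2, x)`, …, `ζ(5, x)` with rational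
coefficients of height at most a power of the height of `x`, not even approximately and after
multiplication of the terms by arbitrary numbers; and that for almost all tuples of elements `s_l` of a
number field the numbers `ζ(k, s_l)`, `2 ≤ k ≤ K + 1`, satisfy no polynomial relation of bounded
complexity, even approximately. The main new point is that `ζ(2, z)`, …, `ζ(K + 1, z)` are algebraically
independent over `ℂ(z)`.
-/

set_option autoImplicit false

open NumberField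

namespace Pool.Agent.Results.MP_524521_nt.HurwitzFamily

/-- The Hurwitz zeta value `ζ(k, z) = ∑_{n ≥ 0} 1 / (z + n) ^ k`; `ζ(k, 1) = ζ(k)`. -/
noncomputable def hurwitz (k : ℕ) (z : ℂ) : ℂ := ∑' n : ℕ, ((z + n) ^ k)⁻¹

/-- The six numbers `ζ(2, z) ζ(3, z)`, `ζ(2, z)`, `ζ(3, z)`, `ζ(4, z)`, `ζ(5, z)`, `1`. -/
noncomputable def six (z : ℂ) : Fin 6 → ℂ :=
  ![hurwitz 2 z * hurwitz 3 z, hurwitz 2 z, hurwitz 3 z, hurwitz 4 z, hurwitz 5 z, 1]

/-- `x = a / c` with integers `a`, `c` of the number field `F`, all of whose conjugates have absolute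
value at most `T`. -/
def HeightLe (F : Type) [Field F] [NumberField F] (T : ℝ) (x : F) : Prop :=
  ∃ a c : 𝓞 F, c ≠ 0 ∧ (∀ φ : F →+* ℂ, ‖φ a‖ ≤ T ∧ ‖φ c‖ ≤ T) ∧ x = a / c

/-- The `N`-tuples `s` of elements of the finite set `X` for which there is a polynomial `P` in `N K`
variables, of degree at most `d` in each of them, with coefficients of the form `∑ ξ_i ι(c_i)`, where
the `c_i` are integers of `F` all of whose conjugates have absolute value at most `T ^ A`, such that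
the value of `P` at the numbers `ζ(k + 2, s_l)`, `k < K`, `l < N`, is at most `T ^ (-B)` times the
absolute value of some nonzero coefficient of `P`. -/
def Exceptional {g : ℕ} (K N d : ℕ) (F : Type) [Field F] [NumberField F] (ι : F →+* ℂ) (ξ : Fin g → ℂ)
    (X : Finset F) (A B T : ℝ) : Set (Fin N → F) :=
  {s | (∀ l, s l ∈ X) ∧ ∃ P : MvPolynomial (Fin N × Fin K) ℂ, (∀ x, P.degreeOf x ≤ d) ∧
    (∀ u, ∃ c : Fin g → 𝓞 F, (∀ i (φ : F →+* ℂ), ‖φ (c i)‖ ≤ T ^ A) ∧ P.coeff u = ∑ i, ξ i * ι (c i)) ∧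
    ∃ u₀, P.coeff u₀ ≠ 0 ∧
      ‖MvPolynomial.aeval (fun x : Fin N × Fin K => hurwitz ((x.2 : ℕ) + 2) (ι (s x.1))) P‖ ≤
        T ^ (-B) * ‖P.coeff u₀‖}

/-- Let `L` be a compact set of complex numbers without the points `0, -1, -2, …`; let `A`, `ε > 0` be
real.
(1) For all `c` there are `B`, `C`, `T₀` such that for all `T ≥ T₀` and all complex numbers `ξ_0, …, ξ_5`
of absolute value at least `T ^ (-c)` (for instance `1`) there are at most `C T ^ ε` rational numbers `x`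
in `L` with numerator and denominator at most `T` in absolute value such that `|∑ ξ_i q_i y_i| ≤ T ^ (-B)`
for some integers `q_0, …, q_5` of absolute value at most `T ^ A`, not all zero, where `y_0, …, y_5` are
the numbers `ζ(2, x) ζ(3, x)`, `ζ(2, x)`, …, `ζ(5, x)`, `1`.
(2) For all `m`, `K`, `N`, `g`, `d` there are `B`, `C`, `T₀` such that for every number field `F` of
degree at most `m`, every embedding `ι`, all complex numbers `ξ_1, …, ξ_g`, all `T ≥ T₀` and every finite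
set `X` of elements of `F` in `L` of height at most `T` there are at most `C T ^ ε |X| ^ (N - 1)`
exceptional `N`-tuples of elements of `X`. -/
theorem result (L : Set ℂ) (hL : IsCompact L) (hL0 : ∀ z ∈ L, ∀ n : ℕ, z ≠ -n) (A ε : ℝ) (hε : 0 < ε) :
    (∀ c : ℝ, ∃ B C T₀ : ℝ, ∀ T : ℝ, T₀ ≤ T → ∀ ξ : Fin 6 → ℂ, (∀ i, T ^ (-c) ≤ ‖ξ i‖) →
      (({x : ℚ | (x : ℂ) ∈ L ∧ |(x.num : ℝ)| ≤ T ∧ (x.den : ℝ) ≤ T ∧
        ∃ q : Fin 6 → ℤ, q ≠ 0 ∧ (∀ i, |(q i : ℝ)| ≤ T ^ A) ∧
          ‖∑ i, ξ i * (q i : ℂ) * six x i‖ ≤ T ^ (-B)}.ncard : ℕ) : ℝ) ≤ C * T ^ ε) ∧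
    ∀ m K N g d : ℕ, ∃ B C T₀ : ℝ,
      ∀ (F : Type) [Field F] [NumberField F], Module.finrank ℚ F ≤ m → ∀ (ι : F →+* ℂ) (ξ : Fin g → ℂ) (T : ℝ),
        T₀ ≤ T → ∀ X : Finset F, (∀ x ∈ X, ι x ∈ L ∧ HeightLe F T x) →
          ((Exceptional K N d F ι ξ X A B T).ncard : ℝ) ≤ C * T ^ ε * (X.card : ℝ) ^ (N - 1) := by
  classical
  refine ⟨fun c => ?_, fun m K N g d => ?_⟩
  · obtain ⟨B, C, T₀, hT₀, hC, H⟩ := Pool.Agent.X142.AZ.few
      (fun k : Fin 4 => Pool.Agent.X142.AZ.hz ((k : ℕ) + 2)) L hL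
      (fun y z hz => Pool.Agent.X142.AZ.hz_analytic (by omega) (hL0 z hz))
      (fun z hz => Pool.Agent.X142.AZ.locIndH MonomialOrder.lex (fun k : Fin 4 => (k : ℕ) + 2)
        (fun i j h => Fin.ext (by simpa using h)) (fun k => by omega) (hL0 z hz)) 5 1
      ![![1, 1, 0, 0], ![1, 0, 0, 0], ![0, 1, 0, 0], ![0, 0, 1, 0], ![0, 0, 0, 1], ![0, 0, 0, 0]]
      (by decide) (by decide) A c ε hε
    refine ⟨B, C, T₀, fun T hT ξ hξ => ?_⟩
    have hT2 : 2 ≤ T := hT₀.trans hT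
    have hT0 : 0 < T := by linarith
    refine Pool.Agent.X142.DN.ncard_le (by positivity) fun S hS => ?_
    refine H T hT ξ hξ S fun x hx => ?_
    obtain ⟨hxL, hxn, hxd, q, hq0, hqA, hqs⟩ := hS x hx
    refine ⟨hxL, hxn, hxd, q, hq0, hqA, le_trans (le_of_eq ?_) hqs⟩
    congr 1
    refine Finset.sum_congr rfl fun i _ => ?_
    congr 1
    fin_cases i <;> simp [six, Fin.prod_univ_four, hurwitz, Pool.Agent.X142.AZ.hz]
  · obtain ⟨B, C, T₀, -, -, H⟩ := Pool.Agent.Y771.RP.mainS m N g d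
      (fun k : Fin K => Pool.Agent.X142.AZ.hz ((k : ℕ) + 2)) L hL
      (fun y z hz => Pool.Agent.X142.AZ.hz_analytic (by omega) (hL0 z hz))
      (fun z hz => Pool.Agent.X142.AZ.locIndH MonomialOrder.lex (fun k : Fin K => (k : ℕ) + 2)
        (fun i j h => Fin.ext (by simpa using h)) (fun k => by omega) (hL0 z hz)) A ε hε
    refine ⟨B, C, T₀, fun F _ _ hF ι ξ T hT X hX => ?_⟩
    have h1 := H F hF ι ξ T hT X (fun x hx => ⟨(hX x hx).1, (hX x hx).2⟩)
    refine le_trans (le_of_eq ?_) h1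
    congr 2
    ext s
    constructor
    · rintro ⟨hX', P, hP1, hP2, u₀, hu₀, hu⟩
      exact ⟨⟨fun j => ⟨(hX _ (hX' j)).1, (hX _ (hX' j)).2⟩, P, hP1, hP2, u₀, hu₀, hu⟩, hX'⟩
    · rintro ⟨⟨-, P, hP1, hP2, u₀, hu₀, hu⟩, hX'⟩
      exact ⟨hX', P, hP1, hP2, u₀, hu₀, hu⟩

end Pool.Agent.Results.MP_524521_nt.HurwitzFamily
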