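import Pool.Agent.Results.MP_524521_nt.HurwitzFamily
import Pool.Agent.X174.HurwTup

/-!
# `ζ(2) ζ(3)` and `ζ(2), …, ζ(5)`: Hurwitz zeta values at ALL simultaneous approximations of `n` numbers

The numbers of the problem are the values at `x = 1` of the functions `ζ(k, x) = ∑_{i ≥ 0} (i + x)^(-k)`. For every `ω > 0`
there is ONE set `E ⊂ ℂ^n` of Hausdorff dimension at most `2 m (n - 1) / ω` (for `n = 1`: of dimension `0`) such that for all
`x ∈ ℂ^n` outside `E` (without poles) the following holds.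
(1) For all `K`, all number fields `F ⊂ ℂ` of degree at most `m`, all `d` and `A` there are `B` and `T₁` such that for all
`T ≥ T₁` and ALL simultaneous approximations `t ∈ F^n` of `x`, of height at most `T`, with `|t_j - x_j| ≤ T ^ (-ω)` for all
`j`, the numbers `ζ(2, t_j)`, …, `ζ(K + 1, t_j)`, all `j` together, satisfy no relation of degree at most `d` with
coefficients which are polynomials of degree at most `d` in the `u_jk(t_j) / w_j(t_j)` and in given complex numbers `ξ_i`,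
with coefficients in `F` of height at most `T ^ A`, not even up to `T ^ (-B)`.
(2) If `m ≥ 1`, for all `A` there are `B` and `T₁` such that for all `T ≥ T₁` and all such rational `t_j` the `5 n + 1` numbers
`1` and `ζ(2, t_j) ζ(3, t_j)`, `ζ(2, t_j)`, …, `ζ(5, t_j)` satisfy `|b + ∑ c_ji y_ji| > T ^ (-B)` for all integers `b`, `c_ji`
of absolute value at most `T ^ A`, not all zero. For `ω > 2 m (n - 1) / n` almost all `x ∈ ℝ^n` are outside `E`. Some
exceptions are unavoidable for `n ≥ 2`: `x_1 = x_2` and `t_1 = t_2`.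

The functions and their independence are those of `HurwitzFamily`, which counts the exceptional rational `x`.
-/

set_option autoImplicit false

open MeasureTheory NumberField

namespace Pool.Agent.Results.MP_524521_nt.SimultaneousApproximations

open Pool.Agent.X39.Near (Size)
open Pool.Agent.X174.NearTup (DependentT)
open HurwitzFamily (hurwitz)

/-- The complex numbers which are none of the poles `0, -1, -2, …`. -/
def domain : Set ℂ := {z | ∀ k : ℕ, z ≠ -k}

/-- The five numbers `ζ(2, z) ζ(3, z)`, `ζ(2, z)`, `ζ(3, z)`, `ζ(4, z)`, `ζ(5, z)`. -/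
noncomputable def five (z : ℂ) : Fin 5 → ℂ :=
  ![hurwitz 2 z * hurwitz 3 z, hurwitz 2 z, hurwitz 3 z, hurwitz 4 z, hurwitz 5 z]

/-- **Theorem.** Let `n ≥ 1`, `m` be natural numbers; for each `j < n` let `u_jk`, `w_j` be complex polynomials, `w_j` without
zeros on the `domain`; let `ξ_1, …, ξ_g` be complex numbers and `ω > 0`. There is a set `E ⊂ ℂ^n` of Hausdorff dimension at
most `2 m (n - 1) / ω`, which contains almost no real point if `2 m (n - 1) < n ω`, such that for all `x` outside `E` with all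
`x_j` in the domain:
(1) for all `K`, all number fields `F` of degree at most `m` with an embedding `ι` in `ℂ` and all `d`, `A` there are `B`, `T₁`
such that for all `T ≥ T₁` and all `t ∈ F^n`, quotients of integers with conjugates at most `T`, with
`|ι t_j - x_j| ≤ T ^ (-ω)` for all `j`, the values at `t` of `ζ(k + 2, z)`, `k < K`, are not dependent;
(2) if `m ≥ 1`, for all `A` there are `B`, `T₁` such that for all `T ≥ T₁`, all rational `t_j` with numerator and denominator
at most `T` and `|t_j - x_j| ≤ T ^ (-ω)` for all `j`, and all integers `b`, `c_ji` of absolute value at most `T ^ A`, not all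
zero, `|b + ∑_j ∑_i c_ji y_i(t_j)| > T ^ (-B)`, where `y_0, …, y_4` are the numbers `five`. -/
theorem result {n q g : ℕ} (hn : 1 ≤ n) (m : ℕ) (u : Fin n → Fin q → Polynomial ℂ) (w : Fin n → Polynomial ℂ)
    (hw : ∀ j, ∀ t ∈ domain, (w j).eval t ≠ 0) (ξ : Fin g → ℂ) (ω : ℝ) (hω : 0 < ω) :
    ∃ E : Set (Fin n → ℂ), dimH E ≤ ENNReal.ofReal (2 * m * ((n : ℝ) - 1) / ω) ∧
      (2 * m * ((n : ℝ) - 1) < n * ω → ∀ᵐ x : Fin n → ℝ, (fun j => (x j : ℂ)) ∉ E) ∧
      ∀ x : Fin n → ℂ, (∀ j, x j ∈ domain) → x ∉ E →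
        (∀ (K : ℕ) (F : Type) [Field F] [NumberField F], Module.finrank ℚ F ≤ m → ∀ (ι : F →+* ℂ) (d A : ℕ),
          ∃ B T₁ : ℝ, ∀ T : ℝ, T₁ ≤ T → ∀ t : Fin n → F, (∀ j, Size F T (t j)) →
            (∀ j, ‖ι (t j) - x j‖ ≤ T ^ (-ω)) →
              ¬ DependentT (fun _ (k : Fin K) => hurwitz ((k : ℕ) + 2)) u w ξ F ι d A B T t) ∧
        (1 ≤ m → ∀ A : ℕ, ∃ B T₁ : ℝ, ∀ T : ℝ, T₁ ≤ T → ∀ t : Fin n → ℚ, (∀ j, |((t j).num : ℝ)| ≤ T) →
          (∀ j, ((t j).den : ℝ) ≤ T) → (∀ j, ‖((t j : ℚ) : ℂ) - x j‖ ≤ T ^ (-ω)) →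
            ∀ (b : ℤ) (c : Fin n → Fin 5 → ℤ), ¬ (b = 0 ∧ c = 0) → |(b : ℝ)| ≤ T ^ A →
              (∀ j i, |(c j i : ℝ)| ≤ T ^ A) →
                T ^ (-B) < ‖(b : ℂ) + ∑ j, ∑ i, (c j i : ℂ) * five ((t j : ℚ) : ℂ) i‖) := by
  have hn1 : (1 : ℝ) ≤ n := by exact_mod_cast hn
  have key : ∀ K : ℕ, _ := fun K => Pool.Agent.X174.NearTup.masterTup hn m (fun _ => domain)
    (fun _ => Pool.Agent.X174.NearTup.isOpen_ne) (fun _ (k : Fin K) => hurwitz ((k : ℕ) + 2))
    (fun j i t ht => Pool.Agent.X142.AZ.hz_analytic (by omega) ht)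
    (fun j t ht => Pool.Agent.X142.AZ.locIndH MonomialOrder.lex (fun k : Fin K => (k : ℕ) + 2)
        (fun i j h => Fin.ext (by simpa using h)) (fun k => by omega) ht)
    u w hw ξ hω
  choose E h1 h2 h3 using key
  refine ⟨⋃ K, E K, ?_, fun h => ?_, fun x hx hxE => ⟨fun K F _ _ hF ι d A => ?_, fun hm A => ?_⟩⟩
  · rw [dimH_iUnion]
    exact iSup_le h1
  · filter_upwards [ae_all_iff.2 fun K => h2 K h] with x hx
    simpa using hx
  · exact h3 K x hx (fun h => hxE (Set.mem_iUnion.2 ⟨K, h⟩)) F hF ι d A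
  · obtain ⟨B, T₁, h⟩ := Pool.Agent.X174.NearTup.lin_of (p := 5) hm (h3 4 x hx (fun h => hxE (Set.mem_iUnion.2 ⟨4, h⟩)))
      ![![1, 1, 0, 0], ![1, 0, 0, 0], ![0, 1, 0, 0], ![0, 0, 1, 0], ![0, 0, 0, 1]] (by decide) (by decide) A
    refine ⟨B, T₁, fun T hT t ht1 ht2 ht3 b c hbc hb hc => ?_⟩
    refine (h T hT t ht1 ht2 ht3 b c hbc hb hc).trans_le (le_of_eq ?_)
    congr 2
    refine Finset.sum_congr rfl fun j _ => Finset.sum_congr rfl fun i _ => ?_
    congr 1
    fin_cases i <;> simp [five, Fin.prod_univ_four]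

end Pool.Agent.Results.MP_524521_nt.SimultaneousApproximations
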